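import Mathlib
import Pool.Agent.H8.Card3

namespace Pool.Agent.Results.MP_e2257e_gt.Add

open Set Filter Topology Pool.Agent.H8.Card
open scoped Cardinal NNReal

/-- the selection property of `C_p(X)` at `0`, in the form of the frozen statement -/
def Alpha2 (X : Set ℝ) : Prop :=
  ∀ f : ℕ → ℕ → C(X, ℝ), (∀ n, ∀ x, Tendsto (fun k => f n k x) atTop (𝓝 0)) →
    ∃ m : ℕ → ℕ, ∀ x, Tendsto (fun n => f n (m n) x) atTop (𝓝 0)

theorem result (ι : Type) (X : ι → Set ℝ) (h : #ι < min bNum (max gNum gfNum))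
    (hX : ∀ i, Alpha2 (X i)) : Alpha2 (⋃ i, X i) := by
  intro f hf
  obtain ⟨m, hm⟩ := core (lt_min_iff.1 h).1 (lt_min_iff.1 h).2
    (fun a => {y | ∃ (x : X a) (ε : ℝ), 0 < ε ∧
      y = fun n m => |f n m (inclusion (subset_iUnion X a) x)| < ε}) (by
    intro a p hp
    let s : ℕ → ℕ → Finset (ℕ × ℕ) := fun n j =>
      Finset.Iic n ×ˢ Finset.Ico (p (j + n)) (p (j + n + 1))
    let F : ℕ → ℕ → C(X a, ℝ) := fun n j =>
      ⟨fun x => (((s n j).sup fun q => ‖f q.1 q.2 (inclusion (subset_iUnion X a) x)‖₊ : ℝ≥0) : ℝ),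
        NNReal.continuous_coe.comp (Continuous.finset_sup_apply fun q _ =>
          ((f q.1 q.2).continuous.comp (continuous_inclusion _)).nnnorm)⟩
    have key : ∀ n j x (ε : ℝ), 0 < ε → (dist (F n j x) 0 < ε ↔
        ∀ q ∈ s n j, |f q.1 q.2 (inclusion (subset_iUnion X a) x)| < ε) := by
      intro n j x ε hε
      lift ε to ℝ≥0 using hε.le
      simp only [F, ContinuousMap.coe_mk, dist_zero_right, Real.norm_eq_abs, NNReal.abs_eq,
        NNReal.coe_lt_coe]
      rw [Finset.sup_lt_iff (by exact_mod_cast hε)]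
      rfl
    obtain ⟨j, hj⟩ := hX a F (by
      intro n x
      rw [Metric.tendsto_nhds]
      intro ε hε
      obtain ⟨N, hN⟩ := eventually_atTop.1 ((eventually_all_finite (finite_Iic n)).2
        fun n' _ => Metric.tendsto_nhds.1 (hf n' (inclusion (subset_iUnion X a) x)) ε hε)
      filter_upwards [eventually_ge_atTop N] with j hj
      rw [key _ _ _ _ hε]
      intro q hq
      simp only [s, Finset.mem_product, Finset.mem_Iic, Finset.mem_Ico] at hq
      have := hp.id_le (j + n)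
      simpa using hN q.2 (by simp only [id] at this; omega) q.1 hq.1)
    refine ⟨fun n => j n + n, fun n => Nat.le_add_left _ _, ?_⟩
    rintro _ ⟨x, ε, hε, rfl⟩
    filter_upwards [Metric.tendsto_nhds.1 (hj x) ε hε] with n hn n' hn' m hm
    exact (key _ _ _ _ hε).1 hn (n', m) (by simpa [s] using ⟨hn', hm⟩))
  refine ⟨m, fun x => Metric.tendsto_nhds.2 fun ε hε => ?_⟩
  obtain ⟨a, ha⟩ := mem_iUnion.1 x.2
  simpa using hm a _ ⟨⟨x.1, ha⟩, ε, hε, rfl⟩

end Pool.Agent.Results.MP_e2257e_gt.Add
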